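import Pool.Agent.X116.ZFin

/-!
# The zeros of `F(x, k) = ∫_0^{arccos (x-1)} sin (k arccos (x - cos λ)) dλ`

For every `k ≥ 1` the function `x ↦ F(x, k)` has exactly `k - 1` zeros in `(0, 2)`, all simple.

Upper bound: with `x = 2 - 2t`,
`F(x, k) = π k ∑ ς_n(k) t^(n+1) / (n+1)!`, where
`ς_n(k) = ∑_{i+j=n} ∏_{l<j} ((l+1/2)² - k²) / j! · (1/2)_i² / i!` satisfies
`ς_{n+1}(k+1) = ς_{n+1}(k-1) - 4 k ς_n(k)`, so that `(-1)^k ς_n(k) > 0` for all `n ≥ k`.
Lower bound: `F(x, k) = k ∫_0^{arccos (x-1)} cos (k μ) arccos (x - cos μ) dμ` and the concavity of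
`μ ↦ arccos (x - cos μ)` give the signs of `F` at the points `x = 1 + cos (m π / k)`.
-/

open Finset Filter Topology

namespace Pool.Agent.Results.MP_c729a8_an.ExactCount

open Pool.Agent.X116.Z

/-- The function `F(x, k)`. -/
noncomputable def F (x : ℝ) (k : ℕ) : ℝ :=
  ∫ l in (0 : ℝ)..Real.arccos (x - 1), Real.sin (k * Real.arccos (x - Real.cos l))

/-- the end points of the intervals -/
noncomputable def u (k j : ℕ) : ℝ := if j + 1 < k then 1 - xm k j / 2 else 1

lemma u_lt {k j : ℕ} (h : j + 1 < k) : u k j = 1 - xm k j / 2 := by simp [u, h]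

lemma u_last {k : ℕ} : u k (k - 1) = 1 := by
  unfold u
  split_ifs with h
  · omega
  · rfl

lemma u_bounds {k j : ℕ} (h : j + 1 < k) : 0 < u k j ∧ u k j < 1 := by
  rw [u_lt h]
  obtain ⟨h0, h2, _⟩ := xm_mem h
  constructor <;> linarith

lemma u_mono {k i j : ℕ} (hij : i < j) (hj : j < k) : u k i < u k j := by
  by_cases h : j + 1 < k
  · rw [u_lt h, u_lt (by omega)]
    have := xm_anti h hij
    linarith
  · have : j = k - 1 := by omega
    subst this
    rw [u_last]
    exact (u_bounds (by omega)).2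

lemma FF_u {k j : ℕ} (h : j + 1 < k) : 0 < (-1 : ℝ) ^ j * ff k (u k j) := by
  have hk : 1 ≤ k := by omega
  have hk0 : (0 : ℝ) < k := by exact_mod_cast hk
  obtain ⟨b0, b1⟩ := u_bounds h
  have hs := FF_sign h
  have e : 2 - 2 * u k j = xm k j := by rw [u_lt h]; ring
  rw [← e, FF_eq hk b0] at hs
  have e2 : (-1 : ℝ) ^ j * (Real.pi * k * u k j * ff k (u k j))
      = (Real.pi * k * u k j) * ((-1 : ℝ) ^ j * ff k (u k j)) := by ring
  rw [e2] at hs
  have hpi := Real.pi_pos
  exact pos_of_mul_pos_right hs (by positivity)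

/-- the alternating chain ending at `η` -/
noncomputable def Y (k : ℕ) (η : ℝ) (i : ℕ) : ℝ := if i + 1 < k then u k i else η

lemma ff_pos_first {k : ℕ} (hk : 2 ≤ k) {t : ℝ} (h0 : 0 < t) (h1 : t ≤ u k 0) : 0 < ff k t := by
  have hk0 : (0 : ℝ) < k := by exact_mod_cast (by omega : 0 < k)
  have hb := u_bounds (k := k) (j := 0) (by omega)
  have hx0 : 0 < 2 - 2 * t := by linarith
  have hle : Real.arccos (2 - 2 * t - 1) ≤ Real.pi / k := by
    obtain ⟨_, _, h3⟩ := xm_mem (k := k) (m := 0) (by omega)
    have e : (((0 + 1 : ℕ) : ℝ)) * (Real.pi / k) = Real.pi / k := by push_cast; ring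
    rw [e] at h3
    rw [← h3]
    apply Real.antitone_arccos
    rw [u_lt (by omega)] at h1
    linarith
  have h := FF_pos_first hx0 (by linarith) (by omega : 1 ≤ k) hle
  unfold ff
  have := Real.pi_pos
  positivity

lemma cover {k : ℕ} {t : ℝ} (h0 : u k 0 < t) (hz : ff k t = 0) :
    ∀ n, n + 1 ≤ k → t < u k n → ∃ j < n, u k j < t ∧ t < u k (j + 1) := by
  intro n
  induction n with
  | zero => intro _ h; exact absurd h (not_lt.mpr h0.le)
  | succ n ih =>
    intro hn ht
    rcases lt_trichotomy t (u k n) with h | h | h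
    · obtain ⟨j, hj, h1, h2⟩ := ih (by omega) h
      exact ⟨j, by omega, h1, h2⟩
    · have := FF_u (k := k) (j := n) (by omega)
      rw [← h, hz, mul_zero] at this
      exact absurd this (lt_irrefl 0)
    · exact ⟨n, by omega, h, ht⟩

/-- existence of a zero in each interval -/
lemma exists_zero {k j : ℕ} (hj : j + 1 < k) : ∃ t, u k j < t ∧ t < u k (j + 1) ∧ ff k t = 0 := by
  have hk : 1 ≤ k := by omega
  -- the right point
  have hr : ∃ η, u k j < η ∧ η ≤ u k (j + 1) ∧ η < 1 ∧ 0 < (-1 : ℝ) ^ (j + 1) * ff k η := by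
    by_cases h : j + 1 + 1 < k
    · exact ⟨u k (j + 1), u_mono (by omega) (by omega), le_rfl, (u_bounds h).2, FF_u h⟩
    · have e : j + 1 = k - 1 := by omega
      obtain ⟨η, h1, _, h3, h4⟩ := near_one hk (u k j) (u_bounds hj).2
      refine ⟨η, h1, ?_, h3, ?_⟩
      · rw [e, u_last]; exact h3.le
      · rw [e]; exact h4
  obtain ⟨η, h1, h2, h3, h4⟩ := hr
  have hb := u_bounds hj
  have hcont : ContinuousOn (fun t => (-1 : ℝ) ^ j * ff k t) (Set.Icc (u k j) η) := by
    intro t ht
    exact ((ff_diff hk (hb.1.trans_le ht.1) (ht.2.trans_lt h3)).continuousAt.const_mul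
      _).continuousWithinAt
  have hs := FF_u hj
  have hn : (-1 : ℝ) ^ j * ff k η < 0 := by
    rw [pow_succ] at h4
    linarith
  have := intermediate_value_Icc' h1.le hcont
  obtain ⟨t, ht, hzt⟩ := this ⟨hn.le, hs.le⟩
  have hz : ff k t = 0 := by
    rcases mul_eq_zero.mp hzt with h | h
    · exact absurd h (pow_ne_zero _ (by norm_num))
    · exact h
  have ne1 : t ≠ u k j := by
    rintro rfl
    rw [hz, mul_zero] at hs
    exact lt_irrefl 0 hs
  have ne2 : t ≠ η := by
    rintro rfl
    rw [hz, mul_zero] at hn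
    exact lt_irrefl 0 hn
  exact ⟨t, lt_of_le_of_ne ht.1 (Ne.symm ne1), (lt_of_le_of_ne ht.2 ne2).trans_le h2, hz⟩

/-- uniqueness and simplicity -/
lemma unique {k j : ℕ} (hj : j + 1 < k) {t : ℝ} (h1 : u k j < t) (h2 : t < u k (j + 1))
    (hz : ff k t = 0) :
    (∀ r, u k j < r → r < u k (j + 1) → ff k r = 0 → r = t) ∧ ¬ HasDerivAt (ff k) 0 t := by
  have hk : 1 ≤ k := by omega
  have hb := u_bounds hj
  have hle1 : u k (j + 1) ≤ 1 := by
    by_cases h : j + 1 + 1 < k
    · exact (u_bounds h).2.le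
    · have e : j + 1 = k - 1 := by omega
      rw [e, u_last]
  have ht0 : 0 < t := hb.1.trans h1
  have ht1 : t < 1 := h2.trans_le hle1
  have hmain : ∀ r, u k j < r → r < u k (j + 1) →
      (ff k r = 0 → r = t) ∧ ¬ HasDerivAt (ff k) 0 t := by
    intro r hr1 hr2
    have hr3 : r < 1 := hr2.trans_le hle1
    -- the last point of the chain
    have hlast : u k (k - 2) < 1 := (u_bounds (by omega)).2
    obtain ⟨η, g1, g2, g3, g4⟩ := near_one hk (max (u k (k - 2)) (max r t))
      (max_lt hlast (max_lt hr3 ht1))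
    have hη1 : u k (k - 2) < η := (le_max_left _ _).trans_lt g1
    have hη2 : r < η := ((le_max_left _ _).trans (le_max_right _ _)).trans_lt g1
    have hη3 : t < η := ((le_max_right _ _).trans (le_max_right _ _)).trans_lt g1
    have hYj : Y k η j = u k j := by simp [Y, hj]
    have hYj1 : r < Y k η (j + 1) ∧ t < Y k η (j + 1) := by
      unfold Y
      split_ifs with h
      · exact ⟨hr2, h2⟩
      · exact ⟨hη2, hη3⟩
    have hY : ∀ i < k, 0 < Y k η i ∧ Y k η i < 1 := by
      intro i hi
      unfold Y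
      split_ifs with h
      · exact u_bounds h
      · exact ⟨g2, g3⟩
    have hm : ∀ i, i + 1 < k → Y k η i < Y k η (i + 1) := by
      intro i hi
      unfold Y
      rw [if_pos hi]
      split_ifs with h
      · exact u_mono (by omega) (by omega)
      · have : i = k - 2 := by omega
        rw [this]
        exact hη1
    have hs : ∀ i < k, 0 < (-1 : ℝ) ^ i * ff k (Y k η i) := by
      intro i hi
      unfold Y
      split_ifs with h
      · exact FF_u h
      · have : i = k - 1 := by omega
        rw [this]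
        exact g4
    have hc : ∀ n, k ≤ n → 0 ≤ (-1 : ℝ) ^ k * (vs n k / ((n + 1).factorial : ℝ)) := by
      intro n hn
      have := vs_sign k n hn
      rw [← mul_div_assoc]
      positivity
    have hε : (-1 : ℝ) ^ k ≠ 0 := pow_ne_zero _ (by norm_num)
    have key := unique_zero hε hc (ff_series hk) (Y k η) hY hm hs hj (z := t)
      (by rw [hYj]; exact h1) hYj1.2 hz
    exact ⟨fun hr => key.1 r (by rw [hYj]; exact hr1) hYj1.1 hr, key.2⟩
  exact ⟨fun r hr1 hr2 => (hmain r hr1 hr2).1, (hmain t h1 h2).2⟩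

lemma F_eq_FF (x : ℝ) (k : ℕ) : F x k = FF x k := rfl

/-- differentiability and simplicity of a zero -/
lemma simple {k : ℕ} (hk : 1 ≤ k) {x : ℝ} (hx : x ∈ Set.Ioo (0 : ℝ) 2) :
    DifferentiableAt ℝ (fun y => F y k) x ∧ (F x k = 0 → deriv (fun y => F y k) x = 0 →
      HasDerivAt (ff k) 0 (1 - x / 2)) := by
  have hk0 : (0 : ℝ) < k := by exact_mod_cast hk
  have ht0 : 0 < 1 - x / 2 := by linarith [hx.2]
  have ht1 : 1 - x / 2 < 1 := by linarith [hx.1]
  have hd : DifferentiableAt ℝ (fun y => F y k) x := by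
    have h1 : DifferentiableAt ℝ (fun y : ℝ => Real.pi * k * (1 - y / 2) * ff k (1 - y / 2)) x := by
      have h2 : DifferentiableAt ℝ (fun y : ℝ => ff k (1 - y / 2)) x := by
        have h3 : DifferentiableAt ℝ (ff k) ((fun y : ℝ => 1 - y / 2) x) := ff_diff hk ht0 ht1
        have h4 : DifferentiableAt ℝ (fun y : ℝ => 1 - y / 2) x := by fun_prop
        exact DifferentiableAt.comp x h3 h4
      exact (by fun_prop : DifferentiableAt ℝ (fun y : ℝ => Real.pi * k * (1 - y / 2)) x).mul h2
    refine h1.congr_of_eventuallyEq ?_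
    filter_upwards [Ioo_mem_nhds hx.1 hx.2] with y hy
    have e : 2 - 2 * (1 - y / 2) = y := by ring
    have := FF_eq hk (t := 1 - y / 2) (by linarith [hy.2])
    rw [e] at this
    rw [F_eq_FF, this]
  refine ⟨hd, fun hz hd0 => ?_⟩
  have h4 : HasDerivAt (fun y => F y k) 0 x := hd0 ▸ hd.hasDerivAt
  have h5 : HasDerivAt (fun t : ℝ => F (2 - 2 * t) k) 0 (1 - x / 2) := by
    have h6 : HasDerivAt (fun y => F y k) 0 (2 - 2 * (1 - x / 2)) := by
      have e : 2 - 2 * (1 - x / 2) = x := by ring
      rw [e]; exact h4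
    have h7 : HasDerivAt (fun t : ℝ => 2 - 2 * t) (-(2 * 1)) (1 - x / 2) :=
      ((hasDerivAt_id (1 - x / 2)).const_mul 2).const_sub 2
    have h10 := h6.comp (1 - x / 2) h7
    rw [zero_mul] at h10
    exact h10
  have h8 : HasDerivAt (fun t : ℝ => Real.pi * k * t) (Real.pi * k * 1) (1 - x / 2) :=
    (hasDerivAt_id (1 - x / 2)).const_mul _
  have hne : Real.pi * k * (1 - x / 2) ≠ 0 := by
    have := Real.pi_pos
    positivity
  have h9 := h5.div h8 hne
  have e : F (2 - 2 * (1 - x / 2)) k = 0 := by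
    have e : 2 - 2 * (1 - x / 2) = x := by ring
    rw [e]; exact hz
  rw [e, zero_mul, zero_mul, sub_zero, zero_div] at h9
  exact h9

/-- **Main theorem.** For every integer `k ≥ 1` the function `x ↦ F(x, k)` has exactly `k - 1`
zeros in the open interval `(0, 2)`, and each of them is simple. -/
theorem result (k : ℕ) (hk : 1 ≤ k) :
    {x : ℝ | x ∈ Set.Ioo (0 : ℝ) 2 ∧ F x k = 0}.encard = ((k - 1 : ℕ) : ℕ∞) ∧
    ∀ x ∈ Set.Ioo (0 : ℝ) 2, F x k = 0 →
      DifferentiableAt ℝ (fun y => F y k) x ∧ deriv (fun y => F y k) x ≠ 0 := by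
  rcases Nat.lt_or_ge k 2 with h | hk2
  · -- `k = 1`
    have : k = 1 := by omega
    subst this
    have hpos : ∀ x ∈ Set.Ioo (0 : ℝ) 2, F x 1 ≠ 0 := by
      intro x hx
      have := FF_pos_first hx.1 hx.2 (le_refl 1) (by simpa using Real.arccos_le_pi (x - 1))
      rw [F_eq_FF]
      exact this.ne'
    refine ⟨?_, fun x hx h => absurd h (hpos x hx)⟩
    have : {x : ℝ | x ∈ Set.Ioo (0 : ℝ) 2 ∧ F x 1 = 0} = ∅ := by
      ext x
      simp only [Set.mem_ofPred_eq, Set.mem_empty_iff_false, iff_false, not_and]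
      exact hpos x
    rw [this]
    simp
  · have hk0 : (0 : ℝ) < k := by exact_mod_cast (by omega : 0 < k)
    -- zeros of `F` and of `ff`
    have hconv : ∀ x ∈ Set.Ioo (0 : ℝ) 2, (F x k = 0 ↔ ff k (1 - x / 2) = 0) := by
      intro x hx
      have ht0 : 0 < 1 - x / 2 := by linarith [hx.2]
      have e : 2 - 2 * (1 - x / 2) = x := by ring
      have h1 := FF_eq hk ht0
      rw [e] at h1
      rw [F_eq_FF, h1]
      have := Real.pi_pos
      constructor
      · intro h
        rcases mul_eq_zero.mp h with h | h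
        · have : 0 < Real.pi * k * (1 - x / 2) := by positivity
          exact absurd h this.ne'
        · exact h
      · intro h
        rw [h, mul_zero]
    -- location of the zeros
    have hloc : ∀ x ∈ Set.Ioo (0 : ℝ) 2, F x k = 0 →
        ∃ j, j + 1 < k ∧ u k j < 1 - x / 2 ∧ 1 - x / 2 < u k (j + 1) := by
      intro x hx hz
      have ht0 : 0 < 1 - x / 2 := by linarith [hx.2]
      have ht1 : 1 - x / 2 < 1 := by linarith [hx.1]
      have hz' := (hconv x hx).mp hz
      have h0 : u k 0 < 1 - x / 2 := by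
        by_contra hcon
        push Not at hcon
        have := ff_pos_first hk2 ht0 hcon
        rw [hz'] at this
        exact lt_irrefl 0 this
      obtain ⟨j, hj, h1, h2⟩ := cover h0 hz' (k - 1) (by omega) (by rw [u_last]; exact ht1)
      exact ⟨j, by omega, h1, h2⟩
    choose! z hz1 hz2 hz3 using fun (j : ℕ) (hj : j + 1 < k) => exists_zero hj
    constructor
    · have hset : {x : ℝ | x ∈ Set.Ioo (0 : ℝ) 2 ∧ F x k = 0}
          = (fun j => 2 - 2 * z j) '' (↑(range (k - 1)) : Set ℕ) := by
        ext x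
        simp only [Set.mem_ofPred_eq, Set.mem_image, Finset.coe_range, Set.mem_Iio]
        constructor
        · rintro ⟨hx, hz⟩
          obtain ⟨j, hj, h1, h2⟩ := hloc x hx hz
          have := (unique hj (hz1 j hj) (hz2 j hj) (hz3 j hj)).1 _ h1 h2 ((hconv x hx).mp hz)
          refine ⟨j, by omega, ?_⟩
          rw [← this]
          ring
        · rintro ⟨j, hj, rfl⟩
          have hj' : j + 1 < k := by omega
          have hb := u_bounds hj'
          have hle1 : u k (j + 1) ≤ 1 := by
            by_cases h : j + 1 + 1 < k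
            · exact (u_bounds h).2.le
            · have e : j + 1 = k - 1 := by omega
              rw [e, u_last]
          have a1 := hz1 j hj'
          have a2 := hz2 j hj'
          have hx : 2 - 2 * z j ∈ Set.Ioo (0 : ℝ) 2 := ⟨by linarith, by linarith⟩
          refine ⟨hx, (hconv _ hx).mpr ?_⟩
          have e : 1 - (2 - 2 * z j) / 2 = z j := by ring
          rw [e]
          exact hz3 j hj'
      have hinj : Set.InjOn (fun j => 2 - 2 * z j) (↑(range (k - 1)) : Set ℕ) := by
        have hlt : ∀ i j, i < j → j + 1 < k → z i < z j := by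
          intro i j hij hj
          have a1 := hz2 i (by omega)
          have a2 := hz1 j hj
          rcases Nat.lt_or_ge (i + 1) j with h | h
          · have := u_mono (k := k) h (by omega)
            linarith
          · have : i + 1 = j := by omega
            rw [this] at a1
            linarith
        intro i hi j hj hij
        simp only [Finset.coe_range, Set.mem_Iio] at hi hj
        have hij' : z i = z j := by
          have : 2 - 2 * z i = 2 - 2 * z j := hij
          linarith
        rcases lt_trichotomy i j with h | h | h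
        · have := hlt i j h (by omega)
          linarith
        · exact h
        · have := hlt j i h (by omega)
          linarith
      rw [hset, hinj.encard_image, Set.encard_coe_eq_coe_finsetCard, Finset.card_range]
    · intro x hx hz
      obtain ⟨hd, hs⟩ := simple hk hx
      refine ⟨hd, fun h0 => ?_⟩
      obtain ⟨j, hj, h1, h2⟩ := hloc x hx hz
      exact (unique hj h1 h2 ((hconv x hx).mp hz)).2 (hs hz h0)

end Pool.Agent.Results.MP_c729a8_an.ExactCount
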